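import Mathlib

set_option autoImplicit false

namespace Pool.Agent.Results.MP_ca6fba_co.WaiterNotTwoColourable

/-- Waiter has a winning strategy in the Client-Waiter game on the hypergraph with vertex set `V` and
edge set `E`, from the position in which Client has claimed `C` and Waiter has claimed `W`. -/
inductive WaiterWins {V : Type} [DecidableEq V] (E : Set (Finset V)) : Finset V → Finset V → Prop
  /-- Every vertex is claimed and Client has not claimed an edge. -/
  | done (C W : Finset V) (hall : ∀ v, v ∈ C ∨ v ∈ W) (hE : ∀ e ∈ E, ¬ e ⊆ C) : WaiterWins E C W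
  /-- Exactly one vertex `v` is unclaimed; Client claims it, and then has not claimed an edge. -/
  | last (C W : Finset V) (v : V) (hvC : v ∉ C) (hvW : v ∉ W)
      (hall : ∀ u, u ≠ v → u ∈ C ∨ u ∈ W) (hE : ∀ e ∈ E, ¬ e ⊆ insert v C) : WaiterWins E C W
  /-- Waiter offers the unclaimed vertices `x ≠ y` and wins whichever of them Client claims. -/
  | offer (C W : Finset V) (x y : V) (hxy : x ≠ y) (hxC : x ∉ C) (hxW : x ∉ W) (hyC : y ∉ C)
      (hyW : y ∉ W) (hx : WaiterWins E (insert x C) (insert y W))
      (hy : WaiterWins E (insert y C) (insert x W)) : WaiterWins E C W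

/-- The hypergraph is 2-colourable: the vertex set splits into two parts, neither of which contains
an edge. -/
def TwoColourable {V : Type} (E : Set (Finset V)) : Prop :=
  ∃ A : Set V, ∀ e ∈ E, ¬ (e : Set V) ⊆ A ∧ ¬ (e : Set V) ⊆ Aᶜ

/-- The possible final sets of Client under the following strategy of Waiter on `{0, …, 7}`.  Offer
`0, 1`.  If Client took `0`, offer `2, 3`, and then `4, 6` and `5, 7` if Client took `2`, but
`4, 7` and `5, 6` if he took `3`.  If Client took `1`, offer `4, 5`, and then `2, 6` and `3, 7` if
Client took `4`, but `2, 7` and `3, 6` if he took `5`. -/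
def outcomes : Finset (Finset (Fin 8)) :=
  {{0, 2, 4, 5}, {0, 2, 4, 7}, {0, 2, 6, 5}, {0, 2, 6, 7},
   {0, 3, 4, 5}, {0, 3, 4, 6}, {0, 3, 7, 5}, {0, 3, 7, 6},
   {1, 4, 2, 3}, {1, 4, 2, 7}, {1, 4, 6, 3}, {1, 4, 6, 7},
   {1, 5, 2, 3}, {1, 5, 2, 6}, {1, 5, 7, 3}, {1, 5, 7, 6}}

/-- The edges: all 4-subsets of `{0, …, 7}` that are not outcomes. -/
def edges : Set (Finset (Fin 8)) := {e | e.card = 4 ∧ e ∉ outcomes}

lemma leaf (C W : Finset (Fin 8)) (h : (∀ v, v ∈ C ∨ v ∈ W) ∧ C.card = 4 ∧ C ∈ outcomes) :
    WaiterWins edges C W := by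
  refine WaiterWins.done C W h.1 ?_
  rintro e ⟨he1, he2⟩ hsub
  have : e = C := Finset.eq_of_subset_of_card_le hsub (by rw [he1, h.2.1])
  exact he2 (this ▸ h.2.2)

theorem waiter : WaiterWins edges ∅ ∅ := by
  apply WaiterWins.offer ∅ ∅ 0 1 (by decide) (by decide) (by decide) (by decide) (by decide)
  · apply WaiterWins.offer _ _ 2 3 (by decide) (by decide) (by decide) (by decide) (by decide)
    · apply WaiterWins.offer _ _ 4 6 (by decide) (by decide) (by decide) (by decide) (by decide)
      · apply WaiterWins.offer _ _ 5 7 (by decide) (by decide) (by decide) (by decide) (by decide) <;>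
          exact leaf _ _ (by decide)
      · apply WaiterWins.offer _ _ 5 7 (by decide) (by decide) (by decide) (by decide) (by decide) <;>
          exact leaf _ _ (by decide)
    · apply WaiterWins.offer _ _ 4 7 (by decide) (by decide) (by decide) (by decide) (by decide)
      · apply WaiterWins.offer _ _ 5 6 (by decide) (by decide) (by decide) (by decide) (by decide) <;>
          exact leaf _ _ (by decide)
      · apply WaiterWins.offer _ _ 5 6 (by decide) (by decide) (by decide) (by decide) (by decide) <;>
          exact leaf _ _ (by decide)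
  · apply WaiterWins.offer _ _ 4 5 (by decide) (by decide) (by decide) (by decide) (by decide)
    · apply WaiterWins.offer _ _ 2 6 (by decide) (by decide) (by decide) (by decide) (by decide)
      · apply WaiterWins.offer _ _ 3 7 (by decide) (by decide) (by decide) (by decide) (by decide) <;>
          exact leaf _ _ (by decide)
      · apply WaiterWins.offer _ _ 3 7 (by decide) (by decide) (by decide) (by decide) (by decide) <;>
          exact leaf _ _ (by decide)
    · apply WaiterWins.offer _ _ 2 7 (by decide) (by decide) (by decide) (by decide) (by decide)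
      · apply WaiterWins.offer _ _ 3 6 (by decide) (by decide) (by decide) (by decide) (by decide) <;>
          exact leaf _ _ (by decide)
      · apply WaiterWins.offer _ _ 3 6 (by decide) (by decide) (by decide) (by decide) (by decide) <;>
          exact leaf _ _ (by decide)

lemma key₀ : ∀ A : Finset (Fin 8), ∃ e ∈ A.powersetCard 4 ∪ Aᶜ.powersetCard 4, e ∉ outcomes := by
  decide +kernel

lemma key (A : Finset (Fin 8)) : ∃ e : Finset (Fin 8), (e.card = 4 ∧ e ∉ outcomes) ∧
    (e ⊆ A ∨ e ⊆ Aᶜ) := by
  obtain ⟨e, he, h⟩ := key₀ A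
  rw [Finset.mem_union, Finset.mem_powersetCard, Finset.mem_powersetCard] at he
  rcases he with he | he
  · exact ⟨e, ⟨he.2, h⟩, Or.inl he.1⟩
  · exact ⟨e, ⟨he.2, h⟩, Or.inr he.1⟩

theorem not_twoColourable : ¬ TwoColourable edges := by
  classical
  rintro ⟨A, hA⟩
  obtain ⟨e, he, h⟩ := key (Finset.univ.filter (· ∈ A))
  obtain ⟨h1, h2⟩ := hA e he
  rcases h with h | h
  · apply h1
    intro v hv
    have := h hv
    simpa using this
  · apply h2
    intro v hv
    have := h hv
    simpa using this

/-- **Main result.**  There is a hypergraph (with 8 vertices, all edges of size 4) on which Waiter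
wins the Client-Waiter game and which is not 2-colourable; so Waiter's win does not imply
2-colourability. -/
theorem result :
    (∃ E : Set (Finset (Fin 8)), (∀ e ∈ E, e.card = 4) ∧ WaiterWins E ∅ ∅ ∧ ¬ TwoColourable E) ∧
    ¬ (∀ (V : Type) [Fintype V] [DecidableEq V] (E : Set (Finset V)),
      WaiterWins E ∅ ∅ → TwoColourable E) :=
  ⟨⟨edges, fun _ he => he.1, waiter, not_twoColourable⟩,
    fun h => not_twoColourable (h (Fin 8) edges waiter)⟩

end Pool.Agent.Results.MP_ca6fba_co.WaiterNotTwoColourable
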